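import Pool.Agent.H91.NV.LTargets

/-! Row L_LB of board nvk_modules (helper20): the average of the local weights over the middle
coefficient. -/

namespace Pool.Agent.H20.NVK

open MeasureTheory Set Filter NumberField NumberField.InfinitePlace
open Pool.Agent.H65.CM4 Pool.Agent.H61.NVK Pool.Agent.H89.NV Pool.Agent.H91.NV
open scoped Real

variable (k : Type) [Field k] [NumberField k] [IsTotallyReal k]

theorem pf_LB (hMIA : T_MIA k) (hMPW : T_MPW k) (hNRA : T_NRA k) : T_LB k := by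
  classical
  intro f q e A m₁ m₂ w hf hq he hA hPq hwq hwA
  obtain ⟨g, hg⟩ : ∃ g : PrI k → 𝓞 k → ℝ, g = fun P b => (if P ∈ m₁ ∧ P ∈ m₂ then
      ((if P.1 ^ 2 ∣ A then 1 else 0) +
        (if P.1 ∣ A ∧ P.1 ∣ e then (nr f P.1 (dvi A P.1) b 0 : ℝ) else 0) +
        (if P.1 ∣ e then 1 else 0) + (if P.1 ^ 2 ∣ e then 1 else 0) : ℝ)
    else ((if P.1 ∣ A then 1 else 0) + (if P.1 ∣ e then 1 else 0) : ℝ)) := ⟨_, rfl⟩
  have hN : ∀ b, Ncb f m₁ m₂ e A b = ∏ P ∈ m₁ ∪ m₂, g P b := by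
    intro b
    rw [hg]
    rfl
  -- the value of a factor depends on `b` only through the number of roots
  have hgc : ∀ (P : PrI k) (b b' : 𝓞 k), (P ∈ m₁ → P ∈ m₂ → P.1 ∣ A →
      nr f P.1 (dvi A P.1) b 0 = nr f P.1 (dvi A P.1) b' 0) → g P b = g P b' := by
    intro P b b' h
    rw [hg]
    by_cases h1 : P ∈ m₁ ∧ P ∈ m₂
    · by_cases h2 : P.1 ∣ A ∧ P.1 ∣ e
      · simp only [if_pos h1, if_pos h2, h h1.1 h1.2 h2.1]
      · simp only [if_pos h1, if_neg h2]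
    · simp only [if_neg h1]
  have hgP : ∀ P : PrI k, Per f P.1 (g P) := by
    intro P b hb x hx
    refine hgc P _ _ fun _ _ hPA => ?_
    exact ((hNRA f A P hf hA hPA).2 b hb).2.1 x hx
  have hg2 : ∀ P : PrI k, Per f (ni k 2 * A) (g P) := by
    intro P b hb x hx
    refine hgc P _ _ fun _ _ hPA => ?_
    rw [mul_assoc, ni, Ideal.mem_span_singleton_mul] at hx
    obtain ⟨j, hj, rfl⟩ := hx
    exact ((hNRA f A P hf hA hPA).2 b hb).2.2 j hj
  have hper1 : Per f (ni k 2 * A) (fun b => w b * Ncb f m₁ m₂ e A b) := by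
    intro b hb x hx
    show w (b + x) * Ncb f m₁ m₂ e A (b + x) = w b * Ncb f m₁ m₂ e A b
    rw [hwA b hb x hx, hN, hN]
    congr 1
    exact Finset.prod_congr rfl fun P _ => hg2 P b hb x hx
  have hper2 : Per f (q * idS (m₁ ∩ m₂)) (fun b => w b * Ncb f m₁ m₂ e A b) := by
    intro b hb x hx
    show w (b + x) * Ncb f m₁ m₂ e A (b + x) = w b * Ncb f m₁ m₂ e A b
    have hx1 : x ∈ q * f := Ideal.mul_mono_left (Ideal.mul_le_left (I := q)) hx
    rw [hwq b hb x hx1, hN, hN]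
    congr 1
    refine Finset.prod_congr rfl fun P _ => hgc P _ _ fun h1 h2 hPA => ?_
    refine ((hNRA f A P hf hA hPA).2 b hb).2.1 x ?_
    have hle : q * idS (m₁ ∩ m₂) ≤ P.1 := by
      refine le_trans Ideal.mul_le_right (Ideal.le_of_dvd ?_)
      exact Finset.dvd_prod_of_mem _ (Finset.mem_inter.2 ⟨h1, h2⟩)
    exact Ideal.mul_mono_left hle hx
  refine ⟨hper1, hper2, ?_⟩
  obtain ⟨R, hR⟩ : ∃ R : Finset (PrI k), R = m₁ ∪ m₂ := ⟨_, rfl⟩
  have hidS : ∀ S : Finset (PrI k), idS S ≠ ⊥ := by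
    intro S
    rw [idS]
    exact Finset.prod_ne_zero_iff.2 fun P _ => P.2.2
  have h2A : ni k 2 * A ≠ ⊥ := by
    refine mul_ne_zero ?_ hA
    intro h0
    rw [ni] at h0
    have := Ideal.span_singleton_eq_bot.1 h0
    norm_num at this
  have hqR : q * idS R ^ 2 ≠ ⊥ := mul_ne_zero hq (pow_ne_zero 2 (hidS R))
  have hper3 : Per f (q * idS R ^ 2) (fun b => w b * Ncb f m₁ m₂ e A b) := by
    intro b hb x hx
    refine hper2 b hb x ?_
    have hle : q * idS R ^ 2 ≤ q * idS (m₁ ∩ m₂) := by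
      refine Ideal.mul_mono_right ?_
      rw [pow_two]
      refine le_trans Ideal.mul_le_right (Ideal.le_of_dvd ?_)
      rw [hR]
      refine Finset.prod_dvd_prod_of_subset _ _ _ ?_
      exact Finset.Subset.trans Finset.inter_subset_left Finset.subset_union_left
    exact Ideal.mul_mono_left hle hx
  have e1 : mI f (ni k 2 * A) (fun b => w b * Ncb f m₁ m₂ e A b) =
      mI f (q * idS R ^ 2) (fun b => w b * Ncb f m₁ m₂ e A b) := by
    rw [← (hMIA f (ni k 2 * A) hf h2A).2.1 _ (q * idS R ^ 2) hqR hper1,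
      ← (hMIA f (q * idS R ^ 2) hf hqR).2.1 _ (ni k 2 * A) h2A hper3, mul_comm (ni k 2 * A)]
  have e2 : mI f (q * idS R ^ 2) (fun b => w b * Ncb f m₁ m₂ e A b) =
      mI f q w * ∏ P ∈ R, mI f (P.1 ^ 2) (g P) := by
    rw [← hMPW f q R w g hf hq (by rw [hR]; exact hPq) hwq]
    · rw [hR]
      congr 1
      funext b
      rw [hN]
    · intro P _ b hb x hx
      refine hgP P b hb x ?_
      have hle : P.1 ^ 2 ≤ P.1 := by
        rw [pow_two]
        exact Ideal.mul_le_right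
      exact Ideal.mul_mono_left hle hx
  rw [e1, e2, hR]
  congr 1
  rw [Nb]
  refine Finset.prod_congr rfl fun P _ => ?_
  have hP0 : P.1 ≠ ⊥ := P.2.2
  obtain ⟨m1, m2, m3, m4, m5, m6, m7⟩ := hMIA f P.1 hf hP0
  have mc : ∀ c : ℝ, mI f P.1 (fun _ => c) = c := by
    intro c
    have := m6 c (fun _ => 1)
    simp only [mul_one] at this
    rw [this, m1, mul_one]
  have e4 : mI f (P.1 ^ 2) (g P) = mI f P.1 (g P) := by
    rw [pow_two, m2 (g P) P.1 hP0 (hgP P)]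
  rw [e4, hg]
  by_cases h1 : P ∈ m₁ ∧ P ∈ m₂
  · by_cases h2 : P.1 ∣ A ∧ P.1 ∣ e
    · simp only [if_pos h1, if_pos h2]
      obtain ⟨x, hx⟩ : ∃ x : ℝ, x = (if P.1 ^ 2 ∣ A then 1 else 0) := ⟨_, rfl⟩
      obtain ⟨y, hy⟩ : ∃ y : ℝ, y = (if P.1 ∣ e then 1 else 0) := ⟨_, rfl⟩
      obtain ⟨z, hz⟩ : ∃ z : ℝ, z = (if P.1 ^ 2 ∣ e then 1 else 0) := ⟨_, rfl⟩
      rw [← hx, ← hy, ← hz]
      have e3 : (fun b : 𝓞 k => x + (nr f P.1 (dvi A P.1) b 0 : ℝ) + y + z) =
          fun b : 𝓞 k => (fun b : 𝓞 k => (nr f P.1 (dvi A P.1) b 0 : ℝ)) b +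
            (fun _ : 𝓞 k => x + y + z) b := by
        funext b
        ring
      rw [e3, m5, mc, (hNRA f A P hf hA h2.1).1]
      ring
    · simp only [if_pos h1, if_neg h2]
      exact mc _
  · simp only [if_neg h1]
    exact mc _

end Pool.Agent.H20.NVK
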